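import Pool.Agent.helper76.FF2.Spec

/-!
# Project FF2, row NUM: the local values at the roots of `P`
-/

set_option autoImplicit false

namespace Pool.Agent.FF2

open Polynomial

theorem NUM_mul1 {K : Type*} [Field K] (f g : K[X]) (b : K) :
    (hasseDeriv 1 (f * g)).eval b = (hasseDeriv 1 f).eval b * g.eval b +
      f.eval b * (hasseDeriv 1 g).eval b := by
  rw [hasseDeriv_mul]
  simp [Finset.Nat.antidiagonal_succ]
  ring

theorem NUM_mul2 {K : Type*} [Field K] (f g : K[X]) (b : K) :
    (hasseDeriv 2 (f * g)).eval b = (hasseDeriv 2 f).eval b * g.eval b +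
      (hasseDeriv 1 f).eval b * (hasseDeriv 1 g).eval b +
      f.eval b * (hasseDeriv 2 g).eval b := by
  rw [hasseDeriv_mul]
  simp [Finset.Nat.antidiagonal_succ]
  ring

theorem NUM_mul3 {K : Type*} [Field K] (f g : K[X]) (b : K) :
    (hasseDeriv 3 (f * g)).eval b = (hasseDeriv 3 f).eval b * g.eval b +
      (hasseDeriv 2 f).eval b * (hasseDeriv 1 g).eval b +
      (hasseDeriv 1 f).eval b * (hasseDeriv 2 g).eval b +
      f.eval b * (hasseDeriv 3 g).eval b := by
  rw [hasseDeriv_mul]
  simp [Finset.Nat.antidiagonal_succ]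
  ring

theorem NUM_pol {K : Type*} [Field K] (B : Finset K) (b : K) (hb : b ∈ B) :
    (pol B).eval b = 0 ∧ (derivative (pol B)).eval b ≠ 0 ∧ pol B ≠ 0 := by
  classical
  have h1 : pol B = (X - C b) * ∏ x ∈ B.erase b, (X - C x) :=
    (Finset.mul_prod_erase B (fun x => X - C x) hb).symm
  have h2 : (∏ x ∈ B.erase b, (X - C x : K[X])).eval b ≠ 0 := by
    rw [eval_prod, Finset.prod_ne_zero_iff]
    intro x hx
    rw [eval_sub, eval_X, eval_C, sub_ne_zero]
    exact (Finset.ne_of_mem_erase hx).symm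
  have h3 : (derivative (pol B)).eval b ≠ 0 := by
    rw [h1, derivative_mul, eval_add, eval_mul, eval_mul, eval_sub, eval_X, eval_C, sub_self,
      zero_mul, add_zero, derivative_sub, derivative_X, derivative_C, sub_zero, eval_one, one_mul]
    exact h2
  refine ⟨?_, h3, ?_⟩
  · rw [h1, eval_mul, eval_sub, eval_X, eval_C, sub_self, zero_mul]
  · intro h
    apply h3
    rw [h, derivative_zero, eval_zero]

/-- `NUM` -/
theorem NUM (K : Type*) [Field K] [CharP K 2] : NUM_stmt K := by
  intro A E s N₁ N₂ B δ hA' hA hs heq b hb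
  obtain ⟨hP0, hp, hPne⟩ := NUM_pol B b hb
  set P := pol B with hP
  set p := (derivative P).eval b with hpdef
  have h2 : ∀ x : K, x + x = 0 := fun x => CharTwo.add_self_eq_zero x
  have h2P : ∀ x : K[X], x + x = 0 := fun x => CharTwo.add_self_eq_zero x
  obtain ⟨Z, hZ⟩ := hA
  have hAe : A = P * P + P * P * P + P * P * (P * P) * Z := by
    have e1 : A + P ^ 2 + P ^ 3 + (P ^ 2 + P ^ 3) = P ^ 4 * Z + (P ^ 2 + P ^ 3) := by rw [hZ]
    have e2 : A + P ^ 2 + P ^ 3 + (P ^ 2 + P ^ 3) = A + ((P ^ 2 + P ^ 3) + (P ^ 2 + P ^ 3)) := by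
      ring
    rw [e2, h2P, add_zero] at e1
    rw [e1]
    ring
  have hP1 : (hasseDeriv 1 P).eval b = p := by rw [hasseDeriv_one]
  -- squares
  have q0 : (P * P).eval b = 0 := by rw [eval_mul, hP0, mul_zero]
  have q1 : (hasseDeriv 1 (P * P)).eval b = 0 := by rw [NUM_mul1, hP0, mul_zero, zero_mul, add_zero]
  have q2 : (hasseDeriv 2 (P * P)).eval b = p ^ 2 := by
    rw [NUM_mul2, hP0, hP1]; ring
  have q3 : (hasseDeriv 3 (P * P)).eval b = 0 := by
    rw [NUM_mul3, hP0, hP1]
    have := h2 ((hasseDeriv 2 P).eval b * p)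
    calc (hasseDeriv 3 P).eval b * 0 + (hasseDeriv 2 P).eval b * p + p * (hasseDeriv 2 P).eval b +
          0 * (hasseDeriv 3 P).eval b = (hasseDeriv 2 P).eval b * p + (hasseDeriv 2 P).eval b * p := by
          ring
      _ = 0 := this
  have c2 : (hasseDeriv 2 (P * P * P)).eval b = 0 := by
    rw [NUM_mul2, q0, q1, hP0]; ring
  have c3 : (hasseDeriv 3 (P * P * P)).eval b = p ^ 3 := by
    rw [NUM_mul3, q0, q1, q2, hP0, hP1]; ring
  have d1 : (hasseDeriv 1 (P * P * (P * P))).eval b = 0 := by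
    rw [NUM_mul1, q0]; ring
  have d2 : (hasseDeriv 2 (P * P * (P * P))).eval b = 0 := by
    rw [NUM_mul2, q0, q1]; ring
  have d3 : (hasseDeriv 3 (P * P * (P * P))).eval b = 0 := by
    rw [NUM_mul3, q0, q1]; ring
  have d0 : (P * P * (P * P)).eval b = 0 := by rw [eval_mul, q0, mul_zero]
  have f2 : (hasseDeriv 2 (P * P * (P * P) * Z)).eval b = 0 := by
    rw [NUM_mul2, d0, d1, d2]; ring
  have f3 : (hasseDeriv 3 (P * P * (P * P) * Z)).eval b = 0 := by
    rw [NUM_mul3, d0, d1, d2, d3]; ring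
  have A2 : (hasseDeriv 2 A).eval b = p ^ 2 := by
    rw [hAe, map_add, map_add, eval_add, eval_add, q2, c2, f2]; ring
  have A3 : (hasseDeriv 3 A).eval b = p ^ 3 := by
    rw [hAe, map_add, map_add, eval_add, eval_add, q3, c3, f3]; ring
  -- the value of `E ^ 2`
  have sqd : ∀ f : K[X], derivative (f ^ 2) = 0 := by
    intro f
    rw [sq, derivative_mul, mul_comm f, h2P]
  have hE : E ^ 2 = derivative P + P ^ 2 * derivative Z := by
    have e1 : derivative A = P ^ 2 * (derivative P + P ^ 2 * derivative Z) := by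
      have e2 : A = P ^ 2 + P ^ 2 * P + (P ^ 2) ^ 2 * Z := by rw [hAe]; ring
      rw [e2, derivative_add, derivative_add, derivative_mul, derivative_mul, sqd, sqd]
      ring
    have e3 : P ^ 2 * E ^ 2 = P ^ 2 * (derivative P + P ^ 2 * derivative Z) := by
      rw [← e1, hA', mul_pow]
    exact mul_left_cancel₀ (pow_ne_zero 2 hPne) e3
  have hEb : E.eval b ^ 2 = p := by
    have e1 := congrArg (eval b) hE
    rw [eval_pow, eval_add, eval_mul, eval_pow, hP0] at e1
    rw [e1]; ring
  have hA'b : (derivative A).eval b = 0 := by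
    rw [hA', eval_pow, eval_mul, hP0]; ring
  have hsb := hs b hb
  have hN : N₁.eval b = b * p := by
    have e1 := congrArg (eval b) heq
    simp only [eval_mul, eval_add, eval_X, eval_C, eval_pow, hA'b, A2, hP0, hEb] at e1
    have e2 : (p * s.eval b) * N₁.eval b = (p * s.eval b) * (b * p) := by
      linear_combination -e1
    exact mul_left_cancel₀ (mul_ne_zero hp hsb) e2
  have hA2' : (derivative (hasseDeriv 2 A)).eval b = p ^ 3 := by
    have e1 : derivative (hasseDeriv 2 A) = (3 : ℕ) • hasseDeriv 3 A := by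
      rw [← hasseDeriv_one, ← LinearMap.comp_apply, hasseDeriv_comp]
      rfl
    rw [e1]
    have e2 : ((3 : ℕ) • hasseDeriv 3 A) = hasseDeriv 3 A := by
      have : (3 : ℕ) • hasseDeriv 3 A = hasseDeriv 3 A + (hasseDeriv 3 A + hasseDeriv 3 A) := by
        rw [show (3 : ℕ) = 1 + (1 + 1) from rfl, add_smul, add_smul, one_smul]
      rw [this, h2P, add_zero]
    rw [e2, A3]
  have hA'' : derivative (derivative A) = 0 := by rw [hA', sqd]
  have hN' : (derivative N₁).eval b = p + b * p ^ 2 := by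
    have e1 := congrArg (fun f => eval b (derivative f)) heq
    simp only [derivative_mul, derivative_add, derivative_X, derivative_C, sqd, hA'', eval_mul,
      eval_add, eval_X, eval_C, eval_pow, eval_one, eval_zero, hA'b, A2, hA2', hP0, hEb,
      hN] at e1
    have e2 : (p * s.eval b) * (derivative N₁).eval b = (p * s.eval b) * (p + b * p ^ 2) := by
      linear_combination -e1
    exact mul_left_cancel₀ (mul_ne_zero hp hsb) e2
  exact ⟨hp, A2, A3, hN, hN'⟩

end Pool.Agent.FF2
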